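import Pool.Agent.Helper10_MWP.CLS
import Pool.Agent.Helper10_MWP.LOC
import Pool.Agent.Helper16_MWP.ISO
import Pool.Agent.Helper19_MWP.KPR
import Pool.Agent.Helper22_MWP.HTC
import Pool.Agent.Helper23_MWP.MAP
import Pool.Agent.Helper27_MWP.REG
import Pool.Agent.Helper30_MWP.VIS
import Pool.Agent.Helper33_MWP.EGX
import Pool.Agent.Helper36_MWP.PEN
import Pool.Agent.Helper37_MWP.HEX
import Pool.Agent.Helper37_MWP.HGT
import Pool.Agent.Helper49_MWP.ENL
import Pool.Agent.Helper66_MWP.CMB
import Pool.Agent.Helper67_MWP.ORD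
import Pool.Agent.Helper7_MWP.DB1
import Pool.Agent.Helper7_MWP.GE1
import Pool.Agent.Helper92_MWP.FIN
import Pool.Agent.Helper95_MWP.BAS

/-!
# Composition of the rows of block MWP: the four letter pentagon
-/

set_option autoImplicit false

namespace Pool.Agent.MWP.H70

theorem fin : FinStmt := by
  have iso := H16.iso
  have db1 := H7.db1
  have ge1 := H7.ge1 db1
  have egx := H33.egx iso ge1
  have ord := H67.ord iso db1 ge1 egx
  have bas := H95.bas iso egx ord
  have vis := H30.vis db1
  have kpr := H19.kpr bas vis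
  have loc := H10.loc H27.reg
  have map := H23.map H37.hgt H22.htc
  have cls := H10.cls map H66.cmb loc
  have pen := H36.pen cls kpr
  exact H92.fin db1 pen (H49.enl H37.hex)

end Pool.Agent.MWP.H70

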