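import Pool.Agent.MWB.Defs
import Pool.Agent.MWP.Stmts
import Pool.Agent.Helper39_MWF.OPR

/-!
# Squad MWB, assembly of the necessity (helper70)

From the four letter pentagon (`MWP.FinStmt`, helper71) and the theorem on words of idempotent
letters (`Helper44_MVT.sato`) to `MWB.NecStmt`.
-/

set_option autoImplicit false

namespace Pool.Agent.MWB.H70

open Pool.Agent.Helper14_MV Pool.Agent.Helper2_MV Pool.Agent.Helper44_MVT

theorem rr_op {β : FIC} {l l' : List ℕ} : RR (FIC.op β) l l' ↔ RR β l.reverse l'.reverse :=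
  Iff.rfl

theorem pow_rev (n : ℕ) : (lx ^ n).reverse = lx ^ n := by
  induction n with
  | zero => rfl
  | succ n ih =>
    rw [pow_succ, FreeMonoid.reverse_mul, ih, ← pow_succ, pow_succ']
    rfl

theorem ncr_op {β : FIC} (h : NCR β) : NCR (FIC.op β) := by
  intro n hn h1
  apply h n hn
  have h2 : β.r (lx ^ (n + 1)).reverse lx.reverse := h1
  rw [pow_rev] at h2
  exact h2

theorem b0_op {β : FIC} (h : B0 β) : B0 (FIC.op β) := ⟨h.1, h.2⟩

/-- one more `x` in front of `x y x` -/
theorem dl {β : FIC} (h : B0 β) : RR β [0, 1, 0] [0, 0, 1, 0] := by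
  have h1 : RR β [0, 0, 1, 0] [0, 0, 0, 1, 0, 0] := (RR.refl (β := β) [0]).append h.2
  have h2 : RR β [0, 0, 1, 0, 0] [0, 0, 0, 1, 0, 0] := h.1.append (RR.refl [1, 0, 0])
  exact β.trans h.2 (β.trans h2 h1.symm)

/-- one more `x` behind `x y x` -/
theorem dr {β : FIC} (h : B0 β) : RR β [0, 1, 0] [0, 1, 0, 0] := by
  have h1 : RR β [0, 1, 0, 0] [0, 0, 1, 0, 0, 0] := h.2.append (RR.refl [0])
  have h2 : RR β [0, 0, 1, 0, 0] [0, 0, 1, 0, 0, 0] := (RR.refl (β := β) [0, 0, 1]).append h.1
  exact β.trans h.2 (β.trans h2 h1.symm)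

/-- substitution in `x y x ≈ x² y x` -/
theorem dls {β : FIC} (h : B0 β) (m : List ℕ) : RR β ([0] ++ m ++ [0]) ([0, 0] ++ m ++ [0]) := by
  have h1 := (dl h).sub (fun c => if c = 0 then [0] else m)
  simpa using h1

theorem drs {β : FIC} (h : B0 β) (m : List ℕ) : RR β ([0] ++ m ++ [0]) ([0] ++ m ++ [0, 0]) := by
  have h1 := (dr h).sub (fun c => if c = 0 then [0] else m)
  simpa using h1

theorem ends {β : FIC} (h : B0 β) (he : RR β [0, 1, 1, 2, 0] [0, 1, 1, 0, 2, 0]) :
    RR β [0, 0, 1, 1, 2, 0] [0, 0, 1, 1, 0, 0, 2, 0] := by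
  have h1 : RR β [0, 0, 1, 1, 2, 0] [0, 0, 1, 1, 0, 2, 0] := (RR.refl (β := β) [0]).append he
  have h2 : RR β [0, 0, 1, 1, 0, 2, 0] [0, 0, 1, 1, 0, 0, 2, 0] := by
    have h3 : RR β ([0, 0, 1, 1] ++ ([0] ++ [2] ++ [0])) ([0, 0, 1, 1] ++ ([0, 0] ++ [2] ++ [0])) :=
      (RR.refl (β := β) [0, 0, 1, 1]).append (dls h [2])
    exact h3
  exact β.trans h1 h2

theorem zero_op {β : FIC} (h : RR (FIC.op β) [0, 0, 1, 1, 0, 0, 1, 1] [1, 1, 0, 0, 1, 1, 0, 0]) :
    RR β [0, 0, 1, 1, 0, 0, 1, 1] [1, 1, 0, 0, 1, 1, 0, 0] := by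
  have h1 : RR β [1, 1, 0, 0, 1, 1, 0, 0] [0, 0, 1, 1, 0, 0, 1, 1] := h
  exact h1.symm

/-- the hypotheses of the pentagon -/
theorem bt {β : FIC} (hm : ModF β) (hn : NCR β) (h0 : B0 β)
    (he : ¬ RR β [0, 1, 1, 2, 0] [0, 1, 1, 0, 2, 0]) : MWP.Bt β where
  ap := ⟨h0.1, by
    intro h
    apply hn 1 (le_refl 1)
    have h1 : β.r (lx ^ (1 + 1)) lx := by
      have h2 := h.symm
      exact h2
    exact h1⟩
  bet := h0.2
  sato := fun u v h1 h2 => sato hm hn h0.1 h0.2 h1 h2
  e0 := he

theorem map_sub_add {l : List ℕ} (hl : ∀ c ∈ l, 3 ≤ c) :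
    (l.map (fun c => c - 3)).map (fun c => c + 3) = l := by
  rw [List.map_map]
  have h : ∀ c ∈ l, ((fun c => c + 3) ∘ (fun c => c - 3)) c = c := by
    intro c hc
    have := hl c hc
    simp only [Function.comp_apply]
    omega
  rw [List.map_congr_left h]
  exact List.map_id' l

theorem dbl_reverse (l : List ℕ) : (dbl l).reverse = dbl l.reverse := by
  induction l with
  | nil => rfl
  | cons a l ih =>
    rw [dbl_cons, List.reverse_cons, List.reverse_cons, ih, List.reverse_cons, dbl_append,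
      List.append_assoc]
    rfl

theorem right {β : FIC} (h : ∀ v : List ℕ, MWP.DV β v) (l : List ℕ) (hl : ∀ c ∈ l, 3 ≤ c) :
    RR β ([0] ++ (dbl l ++ [1, 2, 0, 1])) ([0] ++ (dbl l ++ [1, 2, 1, 0])) := by
  have h1 := h (l.map (fun c => c - 3))
  unfold MWP.DV at h1
  rw [map_sub_add hl] at h1
  exact h1

theorem swap_id {l : List ℕ} (hl : ∀ c ∈ l, 3 ≤ c) :
    (dbl l).flatMap (fun c => if c = 0 then [1] else if c = 1 then [0] else [c]) = dbl l := by
  have h : ∀ c ∈ dbl l, (fun c => if c = 0 then [1] else if c = 1 then [0] else [c]) c = [c] := by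
    intro c hc
    have h1 := hl c (mem_dbl.1 hc)
    have h2 : c ≠ 0 := by omega
    have h3 : c ≠ 1 := by omega
    simp only [h2, h3, if_false]
  rw [List.flatMap_congr h, List.flatMap_singleton']

theorem left {β : FIC} (h : ∀ v : List ℕ, MWP.DV (FIC.op β) v) (l : List ℕ)
    (hl : ∀ c ∈ l, 3 ≤ c) :
    RR β ([0, 1, 2, 0] ++ (dbl l ++ [1])) ([1, 0, 2, 0] ++ (dbl l ++ [1])) := by
  have h1 := right h l.reverse (fun c hc => hl c (List.mem_reverse.1 hc))
  rw [rr_op] at h1
  have e1 : ([0] ++ (dbl l.reverse ++ [1, 2, 0, 1])).reverse = [1, 0, 2, 1] ++ (dbl l ++ [0]) := by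
    rw [List.reverse_append, List.reverse_append, dbl_reverse, List.reverse_reverse]
    simp
  have e2 : ([0] ++ (dbl l.reverse ++ [1, 2, 1, 0])).reverse = [0, 1, 2, 1] ++ (dbl l ++ [0]) := by
    rw [List.reverse_append, List.reverse_append, dbl_reverse, List.reverse_reverse]
    simp
  rw [e1, e2] at h1
  have h2 := h1.sub (fun c => if c = 0 then [1] else if c = 1 then [0] else [c])
  rw [List.flatMap_append, List.flatMap_append, List.flatMap_append, List.flatMap_append,
    swap_id hl] at h2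
  simpa using h2

theorem tau {β : FIC} (hm : ModF β) (hn : NCR β) (h0 : B0 β) (l : List ℕ) :
    RR β ([0, 0] ++ (dbl l ++ [0, 0])) ([0, 0] ++ l.flatMap (fun c => [c, c, 0, 0])) := by
  have e1 : dbl (0 :: (l ++ [0])) = [0, 0] ++ (dbl l ++ [0, 0]) := by
    rw [dbl_cons, dbl_append]
    rfl
  have e2 : dbl (0 :: l.flatMap (fun c => [c, 0])) = [0, 0] ++ l.flatMap (fun c => [c, c, 0, 0]) := by
    rw [dbl_cons]
    unfold dbl
    rw [List.flatMap_assoc]
    rfl
  rw [← e1, ← e2]
  apply sato hm hn h0.1 h0.2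
  · intro a
    constructor
    · intro h
      rcases List.mem_cons.1 h with h | h
      · subst h; exact List.mem_cons_self
      · rcases List.mem_append.1 h with h | h
        · exact List.mem_cons_of_mem _ (List.mem_flatMap.2 ⟨a, h, by simp⟩)
        · rw [List.mem_singleton] at h
          subst h; exact List.mem_cons_self
    · intro h
      rcases List.mem_cons.1 h with h | h
      · subst h; exact List.mem_cons_self
      · obtain ⟨c, hc, h1⟩ := List.mem_flatMap.1 h
        simp only [List.mem_cons, List.not_mem_nil, or_false] at h1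
        rcases h1 with h1 | h1
        · subst h1
          simp [hc]
        · subst h1; exact List.mem_cons_self
  · intro a b hab
    unfold P2
    rw [MWP.pair_cons, MWP.pair_cons, MWP.pair_append, MWP.pair_flatMap]
    constructor
    · rintro (⟨h1, h2⟩ | (h1 | ⟨h1, h2⟩ | h1))
      · left
        refine ⟨h1, ?_⟩
        rcases List.mem_append.1 h2 with h2 | h2
        · exact List.mem_flatMap.2 ⟨b, h2, by simp⟩
        · rw [List.mem_singleton] at h2
          exact absurd (h1.trans h2.symm) hab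
      · exact Or.inr (Or.inr ⟨a, b, h1, by simp, by simp⟩)
      · rw [List.mem_singleton] at h2
        subst h2
        exact Or.inr (Or.inl ⟨a, h1, List.Sublist.refl _⟩)
      · have := h1.length_le
        simp at this
    · rintro (⟨h1, h2⟩ | (⟨c, hc, h1⟩ | ⟨c, d, h1, h2, h3⟩))
      · left
        refine ⟨h1, ?_⟩
        obtain ⟨c, hc, h3⟩ := List.mem_flatMap.1 h2
        simp only [List.mem_cons, List.not_mem_nil, or_false] at h3
        rcases h3 with h3 | h3
        · subst h3
          simp [hc]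
        · subst h3
          simp
      · rw [MWP.pair_cons] at h1
        rcases h1 with ⟨h1, h2⟩ | h1
        · rw [List.mem_singleton] at h2
          subst h1; subst h2
          exact Or.inr (Or.inr (Or.inl ⟨hc, by simp⟩))
        · have := h1.length_le
          simp at this
      · simp only [List.mem_cons, List.not_mem_nil, or_false] at h2 h3
        have h4 := MWP.pair_mem h1
        rcases h2 with h2 | h2
        · rcases h3 with h3 | h3
          · subst h2; subst h3
            exact Or.inr (Or.inl h1)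
          · subst h2; subst h3
            exact Or.inr (Or.inr (Or.inl ⟨h4.1, by simp⟩))
        · rcases h3 with h3 | h3
          · subst h2; subst h3
            exact Or.inl ⟨rfl, by simp [h4.2]⟩
          · exact absurd (h2.trans h3.symm) hab

/-- **necessity for the beta theorem** -/
theorem nec (hF : MWP.FinStmt) : NecStmt := by
  intro β hm hn h0
  by_cases he : RR β [0, 1, 1, 2, 0] [0, 1, 1, 0, 2, 0]
  · exact Or.inl ⟨h3_of hm hn h0.2, ends h0 he⟩
  by_cases he' : RR (FIC.op β) [0, 1, 1, 2, 0] [0, 1, 1, 0, 2, 0]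
  · refine Or.inr (Or.inl ⟨h3_of hm hn h0.2, ?_⟩)
    have h1 := ends (b0_op h0) he'
    exact h1
  · refine Or.inr (Or.inr ⟨?_, ?_, tau hm hn h0⟩)
    · exact right (hF β (bt hm hn h0 he) hm)
    · exact left (hF (FIC.op β) (bt (op_modF hm) (ncr_op hn) (b0_op h0) he') (op_modF hm))

end Pool.Agent.MWB.H70
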